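import Pool.Agent.MP_fcd29e_an.H81.Spec

/-!
The flux integrates to zero.
-/

set_option autoImplicit false

open Pool.Agent.MP_fcd29e_an.H81 MeasureTheory Complex Set Filter Topology Metric
open scoped ContDiff ComplexConjugate ENNReal NNReal

namespace Pool.Agent.MP_fcd29e_an.H64

variable {N : ℕ}

/-- Smooth at the regular points of the concave side; on `K` the function and its derivative
grow at most like `ρ^{-a}`. -/
def Gr (ρ : E N → ℝ) (K : Set (E N)) (a : ℕ) (g : E N → ℂ) : Prop :=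
  (∀ z ∈ Op ρ ∩ Reg ρ, ContDiffAt ℝ ∞ g z) ∧
    ∃ C : ℝ, 0 ≤ C ∧ ∀ z ∈ Op ρ ∩ K, ‖g z‖ * ρ z ^ a ≤ C ∧ ‖fderiv ℝ g z‖ * ρ z ^ a ≤ C

theorem nsm (c : ℂ) (A : E N →L[ℝ] ℂ) : ‖c • A‖ ≤ ‖c‖ * ‖A‖ := by
  refine ContinuousLinearMap.opNorm_le_bound _ (by positivity) fun v => ?_
  rw [ContinuousLinearMap.smul_apply, smul_eq_mul, norm_mul, mul_assoc]
  exact mul_le_mul_of_nonneg_left (A.le_opNorm v) (norm_nonneg _)

section gr

variable {ρ : E N → ℝ} {K : Set (E N)} {a b : ℕ} {f g : E N → ℂ}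

theorem Gr.add (hK : K ⊆ Reg ρ) (hf : Gr ρ K a f) (hg : Gr ρ K a g) :
    Gr ρ K a fun z => f z + g z := by
  obtain ⟨f1, C, hC, f2⟩ := hf
  obtain ⟨g1, D, hD, g2⟩ := hg
  refine ⟨fun z hz => (f1 z hz).add (g1 z hz), C + D, by positivity, fun z hz => ?_⟩
  have hz' : z ∈ Op ρ ∩ Reg ρ := ⟨hz.1, hK hz.2⟩
  have hp : 0 ≤ ρ z ^ a := pow_nonneg hz.1.2.le _
  obtain ⟨p1, p2⟩ := f2 z hz
  obtain ⟨q1, q2⟩ := g2 z hz
  constructor
  · calc ‖f z + g z‖ * ρ z ^ a ≤ (‖f z‖ + ‖g z‖) * ρ z ^ a :=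
          mul_le_mul_of_nonneg_right (norm_add_le _ _) hp
      _ ≤ C + D := by rw [add_mul]; linarith
  · rw [fderiv_fun_add (ContDiffAt.da (f1 z hz')) (ContDiffAt.da (g1 z hz'))]
    calc ‖fderiv ℝ f z + fderiv ℝ g z‖ * ρ z ^ a
        ≤ (‖fderiv ℝ f z‖ + ‖fderiv ℝ g z‖) * ρ z ^ a :=
          mul_le_mul_of_nonneg_right (norm_add_le _ _) hp
      _ ≤ C + D := by rw [add_mul]; linarith

theorem Gr.mul (hK : K ⊆ Reg ρ) (hf : Gr ρ K a f) (hg : Gr ρ K b g) :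
    Gr ρ K (a + b) fun z => f z * g z := by
  obtain ⟨f1, C, hC, f2⟩ := hf
  obtain ⟨g1, D, hD, g2⟩ := hg
  refine ⟨fun z hz => (f1 z hz).mul (g1 z hz), 2 * (C * D), by positivity, fun z hz => ?_⟩
  have hz' : z ∈ Op ρ ∩ Reg ρ := ⟨hz.1, hK hz.2⟩
  have hp : 0 ≤ ρ z ^ a := pow_nonneg hz.1.2.le _
  have hq : 0 ≤ ρ z ^ b := pow_nonneg hz.1.2.le _
  obtain ⟨p1, p2⟩ := f2 z hz
  obtain ⟨q1, q2⟩ := g2 z hz
  have e1 : (‖f z‖ * ρ z ^ a) * (‖g z‖ * ρ z ^ b) ≤ C * D :=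
    mul_le_mul p1 q1 (by positivity) hC
  have e2 : (‖f z‖ * ρ z ^ a) * (‖fderiv ℝ g z‖ * ρ z ^ b) ≤ C * D :=
    mul_le_mul p1 q2 (by positivity) hC
  have e3 : (‖fderiv ℝ f z‖ * ρ z ^ a) * (‖g z‖ * ρ z ^ b) ≤ C * D :=
    mul_le_mul p2 q1 (by positivity) hC
  have hCD : 0 ≤ C * D := by positivity
  constructor
  · rw [norm_mul, pow_add]
    nlinarith
  · rw [fderiv_fun_mul (ContDiffAt.da (f1 z hz')) (ContDiffAt.da (g1 z hz')), pow_add]
    have : ‖f z • fderiv ℝ g z + g z • fderiv ℝ f z‖ ≤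
        ‖f z‖ * ‖fderiv ℝ g z‖ + ‖g z‖ * ‖fderiv ℝ f z‖ :=
      (norm_add_le _ _).trans (add_le_add (nsm _ _) (nsm _ _))
    calc ‖f z • fderiv ℝ g z + g z • fderiv ℝ f z‖ * (ρ z ^ a * ρ z ^ b)
        ≤ (‖f z‖ * ‖fderiv ℝ g z‖ + ‖g z‖ * ‖fderiv ℝ f z‖) * (ρ z ^ a * ρ z ^ b) :=
          mul_le_mul_of_nonneg_right this (by positivity)
      _ = (‖f z‖ * ρ z ^ a) * (‖fderiv ℝ g z‖ * ρ z ^ b) +
          (‖fderiv ℝ f z‖ * ρ z ^ a) * (‖g z‖ * ρ z ^ b) := by ring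
      _ ≤ 2 * (C * D) := by linarith

theorem Gr.mul0 (hK : K ⊆ Reg ρ) (hf : Gr ρ K 0 f) (hg : Gr ρ K b g) :
    Gr ρ K b fun z => f z * g z := by
  simpa using Gr.mul hK hf hg

theorem Gr.const (c : ℂ) : Gr ρ K 0 fun _ => c :=
  ⟨fun _ _ => contDiffAt_const, ‖c‖, norm_nonneg _, fun z _ => by simp⟩

theorem Gr.zero : Gr ρ K a fun _ => 0 :=
  ⟨fun _ _ => contDiffAt_const, 0, le_rfl, fun z _ => by simp⟩

theorem Gr.neg (hK : K ⊆ Reg ρ) (hf : Gr ρ K a f) : Gr ρ K a fun z => -f z := by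
  simpa using Gr.mul0 hK (Gr.const (-1)) hf

theorem Gr.sub (hK : K ⊆ Reg ρ) (hf : Gr ρ K a f) (hg : Gr ρ K a g) :
    Gr ρ K a fun z => f z - g z := by
  simpa [sub_eq_add_neg] using Gr.add hK hf (Gr.neg hK hg)

theorem Gr.sum (hK : K ⊆ Reg ρ) {ι : Type} (s : Finset ι) {F : ι → E N → ℂ}
    (h : ∀ i ∈ s, Gr ρ K a (F i)) : Gr ρ K a fun z => ∑ i ∈ s, F i z := by
  classical
  induction s using Finset.induction_on with
  | empty => simpa using Gr.zero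
  | insert i s hi ih =>
    simp only [Finset.sum_insert hi]
    exact Gr.add hK (h i (Finset.mem_insert_self _ _))
      (ih fun j hj => h j (Finset.mem_insert_of_mem hj))

theorem Gr.conj (hf : Gr ρ K a f) : Gr ρ K a fun z => conj (f z) := by
  obtain ⟨f1, C, hC, f2⟩ := hf
  refine ⟨fun z hz => contDiffAt_conj (f1 z hz), C, hC, fun z hz => ⟨?_, ?_⟩⟩
  · rw [Complex.norm_conj]; exact (f2 z hz).1
  · refine le_trans (mul_le_mul_of_nonneg_right ?_ (pow_nonneg hz.1.2.le _)) (f2 z hz).2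
    refine ContinuousLinearMap.opNorm_le_bound _ (norm_nonneg _) fun v => ?_
    rw [fderiv_conj, Complex.norm_conj]
    exact ContinuousLinearMap.le_opNorm _ _

theorem Gr.of_smooth (hK : K ⊆ Reg ρ) (hc : IsCompact K)
    (hf : ∀ z ∈ Reg ρ, ContDiffAt ℝ ∞ f z) : Gr ρ K 0 f := by
  have h1 : ContinuousOn f K := fun z hz => (hf z (hK hz)).continuousAt.continuousWithinAt
  have h2 : ContinuousOn (fderiv ℝ f) K := fun z hz =>
    ((hf z (hK hz)).fderiv_right (m := ∞) le_rfl).continuousAt.continuousWithinAt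
  obtain ⟨C, hC⟩ := hc.exists_bound_of_continuousOn h1
  obtain ⟨D, hD⟩ := hc.exists_bound_of_continuousOn h2
  refine ⟨fun z hz => hf z hz.2, |C| + |D|, by positivity, fun z hz => ⟨?_, ?_⟩⟩
  · have := hC z hz.2
    have := le_abs_self C
    have := abs_nonneg D
    simp only [pow_zero, mul_one]; linarith
  · have := hD z hz.2
    have := le_abs_self D
    have := abs_nonneg C
    simp only [pow_zero, mul_one]; linarith

theorem Gr.temp (ho : IsOpen (Op ρ)) (hc : IsCompact K) (h0 : (0 : E N) ∉ K) {w : E N → ℂ}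
    (hw : Temp ρ a w) : Gr ρ K a w ∧ ∀ v, Gr ρ K a fun z => fderiv ℝ w z v := by
  obtain ⟨C, hC⟩ := hw.2 K hc h0
  have hs : ∀ z ∈ Op ρ, ContDiffAt ℝ ∞ w z := fun z hz => hw.1.contDiffAt (ho.mem_nhds hz)
  have key : ∀ z ∈ Op ρ ∩ K, ∀ i ≤ 2, ‖iteratedFDeriv ℝ i w z‖ * ρ z ^ a ≤ |C| := by
    intro z hz i hi
    have hp : 0 < ρ z ^ a := pow_pos hz.1.2 _
    have := (le_div_iff₀ hp).1 (hC z hz i hi)
    exact this.trans (le_abs_self C)
  refine ⟨⟨fun z hz => hs z hz.1, |C|, abs_nonneg _, fun z hz => ⟨?_, ?_⟩⟩, fun v =>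
    ⟨fun z hz => contDiffAt_fderiv_apply (hs z hz.1) v, |C| * ‖v‖, by positivity,
      fun z hz => ⟨?_, ?_⟩⟩⟩
  · simpa [norm_iteratedFDeriv_zero] using key z hz 0 (by norm_num)
  · simpa [norm_iteratedFDeriv_one] using key z hz 1 (by norm_num)
  · have h1 := key z hz 1 (by norm_num)
    rw [norm_iteratedFDeriv_one] at h1
    have hp : 0 ≤ ρ z ^ a := pow_nonneg hz.1.2.le _
    calc ‖fderiv ℝ w z v‖ * ρ z ^ a ≤ (‖fderiv ℝ w z‖ * ‖v‖) * ρ z ^ a :=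
          mul_le_mul_of_nonneg_right (ContinuousLinearMap.le_opNorm _ _) hp
      _ = (‖fderiv ℝ w z‖ * ρ z ^ a) * ‖v‖ := by ring
      _ ≤ |C| * ‖v‖ := mul_le_mul_of_nonneg_right h1 (norm_nonneg _)
  · have h2 := key z hz 2 le_rfl
    rw [← norm_iteratedFDeriv_fderiv, norm_iteratedFDeriv_one] at h2
    have hp : 0 ≤ ρ z ^ a := pow_nonneg hz.1.2.le _
    have hd : DifferentiableAt ℝ (fderiv ℝ w) z :=
      ((hs z hz.1).fderiv_right (m := ∞) le_rfl).differentiableAt (by simp)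
    have hb : ‖fderiv ℝ (fun z => fderiv ℝ w z v) z‖ ≤ ‖fderiv ℝ (fderiv ℝ w) z‖ * ‖v‖ := by
      refine ContinuousLinearMap.opNorm_le_bound _ (by positivity) fun u => ?_
      rw [fderiv_clm_apply hd (differentiableAt_const _)]
      simp only [fderiv_fun_const, Pi.zero_apply, ContinuousLinearMap.comp_zero, zero_add,
        ContinuousLinearMap.flip_apply]
      calc ‖fderiv ℝ (fderiv ℝ w) z u v‖ ≤ ‖fderiv ℝ (fderiv ℝ w) z‖ * ‖u‖ * ‖v‖ :=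
            ContinuousLinearMap.le_opNorm₂ _ _ _
        _ = _ := by ring
    calc ‖fderiv ℝ (fun z => fderiv ℝ w z v) z‖ * ρ z ^ a
        ≤ (‖fderiv ℝ (fderiv ℝ w) z‖ * ‖v‖) * ρ z ^ a := mul_le_mul_of_nonneg_right hb hp
      _ = (‖fderiv ℝ (fderiv ℝ w) z‖ * ρ z ^ a) * ‖v‖ := by ring
      _ ≤ |C| * ‖v‖ := mul_le_mul_of_nonneg_right h2 (norm_nonneg _)

theorem Gr.dz (hK : K ⊆ Reg ρ) {w : E N → ℂ} (h : ∀ v, Gr ρ K a fun z => fderiv ℝ w z v)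
    (j : Fin N) : Gr ρ K a (dz j w) ∧ Gr ρ K a (dzb j w) := by
  have h1 := Gr.mul0 hK (Gr.const (1 / 2))
    (Gr.sub hK (h (ee j)) (Gr.mul0 hK (Gr.const I) (h (I • ee j))))
  have h2 := Gr.mul0 hK (Gr.const (1 / 2))
    (Gr.add hK (h (ee j)) (Gr.mul0 hK (Gr.const I) (h (I • ee j))))
  constructor
  · convert h1 using 1
    funext z; simp only [H81.dz]; ring
  · convert h2 using 1
    funext z; simp only [H81.dzb]; ring

end gr

/-- The compact set that carries the flux. -/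
def KK (ρ : E N → ℝ) (r₀ : ℝ) : Set (E N) := Sh N ∩ ρ ⁻¹' Icc 0 r₀

theorem isClosed_Sh : IsClosed (Sh N) := by
  have hc : Continuous fun z : E N => ‖z‖ ^ 2 := by fun_prop
  exact (isClosed_le continuous_const hc).inter (isClosed_le hc continuous_const)

theorem zero_notMem_Sh : (0 : E N) ∉ Sh N := by
  intro h
  have := h.1
  norm_num at this

theorem isCompact_Sh : IsCompact (Sh N) := by
  refine (isCompact_closedBall (0 : E N) 2).of_isClosed_subset isClosed_Sh fun z hz => ?_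
  rw [mem_closedBall_zero_iff]
  have := hz.2
  nlinarith [norm_nonneg z]

theorem isCompact_KK {ρ : E N → ℝ} (hρ : Dom ρ) (r₀ : ℝ) : IsCompact (KK ρ r₀) := by
  have hc : ContinuousOn ρ (Sh N) := hρ.smooth.continuousOn.mono fun z hz h =>
    zero_notMem_Sh (by rw [mem_singleton_iff.1 h] at hz; exact hz)
  exact isCompact_Sh.of_isClosed_subset (hc.preimage_isClosed_of_isClosed isClosed_Sh isClosed_Icc)
    inter_subset_left

theorem key (h : StmtE1) {ρ φ : E N → ℝ} (hρ : Dom ρ) (hφ : SI ρ φ) (hO : IsOpen (Op ρ))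
    (hR : IsOpen (Reg ρ)) {κ f : ℝ → ℝ} (hκ : Kap κ) {r₀ r₁ t B : ℝ} {a : ℕ} (hr : r₁ < r₀)
    (hK : KK ρ r₀ ⊆ Reg ρ) (hf : ContDiffOn ℝ ∞ f (Ioi 0)) (hf0 : ∀ s, r₁ ≤ s → f s = 0)
    (hfB : ∀ s > 0, s ≤ r₀ → |f s| ≤ B * s ^ (2 * a + 2) ∧ |deriv f s| ≤ B * s ^ (2 * a + 1))
    {G : E N → ℂ} (hG : Gr ρ (KK ρ r₀) (a + a) G) (V : E N → ℂ)
    (hV : ∀ z, V z = (Wt f κ t ρ φ z : ℝ) * G z) (j : Fin N) :
    (IntegrableOn (dz j V) (Op ρ) ∧ ∫ z in Op ρ, dz j V z = 0) ∧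
      IntegrableOn (dzb j V) (Op ρ) ∧ ∫ z in Op ρ, dzb j V z = 0 := by
  have hc := isCompact_KK hρ r₀
  have h0 : (0 : E N) ∉ KK ρ r₀ := fun hz => zero_notMem_Sh hz.1
  have hρs : ∀ z : E N, z ≠ 0 → ContDiffAt ℝ ∞ ρ z := fun z hz =>
    hρ.smooth.contDiffAt (isOpen_E0.mem_nhds hz)
  have hS : Gr ρ (KK ρ r₀) 0 (cx fun z => κ (‖z‖ ^ 2) * Real.exp (t * φ z)) := by
    refine Gr.of_smooth hK hc fun z hz => contDiffAt_cx ?_
    have h1 : ContDiffAt ℝ ∞ φ z := hφ.1.contDiffAt (hR.mem_nhds hz)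
    have h2 : ContDiffAt ℝ ∞ (fun z : E N => ‖z‖ ^ 2) z := (contDiff_norm_sq ℝ).contDiffAt
    exact (hκ.smooth.contDiffAt.comp z h2).mul
      (Real.contDiff_exp.contDiffAt.comp z (contDiffAt_const.mul h1))
  obtain ⟨g1, C, hC, g2⟩ := Gr.mul0 hK hS hG
  obtain ⟨-, M, hM, m2⟩ : Gr ρ (KK ρ r₀) 0 (cx ρ) :=
    Gr.of_smooth hK hc fun z hz => contDiffAt_cx (hρs z hz.1)
  set H : E N → ℂ := fun z => cx (fun z => κ (‖z‖ ^ 2) * Real.exp (t * φ z)) z * G z with hH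
  have hVe : V = fun z => cx (fun z => f (ρ z)) z * H z := by
    funext z
    rw [hV z]
    simp only [Wt, hH, cx]
    push_cast
    ring
  have hfs : ∀ z ∈ Op ρ, ContDiffAt ℝ ∞ f (ρ z) := fun z hz =>
    hf.contDiffAt (Ioi_mem_nhds hz.2)
  have hF : ∀ z ∈ Op ρ, ContDiffAt ℝ ∞ (cx fun z => f (ρ z)) z := fun z hz =>
    contDiffAt_cx ((hfs z hz).comp z (hρs z hz.1))
  have hzero : ∀ z ∈ Op ρ, z ∉ KK ρ r₀ → ∀ᶠ y in 𝓝 z, V y = 0 := by
    intro z hz hzK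
    by_cases hsh : z ∈ Sh N
    · have h1 : r₀ < ρ z := by
        by_contra hle
        exact hzK ⟨hsh, hz.2.le, not_lt.1 hle⟩
      have h2 : ∀ᶠ y in 𝓝 z, r₁ < ρ y :=
        (hρs z hz.1).continuousAt.eventually (lt_mem_nhds (hr.trans h1))
      filter_upwards [h2] with y hy
      rw [hV y, Wt, hf0 _ hy.le]
      simp
    · filter_upwards [isClosed_Sh.isOpen_compl.mem_nhds hsh] with y hy
      have : κ (‖y‖ ^ 2) = 0 := by
        by_contra hne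
        exact hy ⟨(hκ.supp _ hne).1.le, (hκ.supp _ hne).2.le⟩
      rw [hV y, Wt, this]
      simp
  refine h N ρ hρ V (KK ρ r₀) (|B| * C + (|B| * C * r₀ ^ 2 + |B| * C * M * |r₀|)) hc h0 ?_ ?_ ?_ j
  · intro z hz
    by_cases hzK : z ∈ KK ρ r₀
    · rw [hVe]
      exact ((hF z hz).mul (g1 z ⟨hz, hK hzK⟩)).contDiffWithinAt
    · exact ((contDiffAt_const (c := (0 : ℂ))).congr_of_eventuallyEq
        (hzero z hz hzK)).contDiffWithinAt
  · intro z hz hzK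
    exact (hzero z hz hzK).self_of_nhds
  · intro z hz
    have hp : 0 < ρ z := hz.1.2
    have hle : ρ z ≤ r₀ := hz.2.2.2
    obtain ⟨b1, b2⟩ := hfB _ hp hle
    obtain ⟨c1, c2⟩ := g2 z hz
    have m3 : ‖fderiv ℝ (cx ρ) z‖ ≤ M := by simpa using (m2 z hz).2
    have hq : 0 < ρ z ^ (a + a) := pow_pos hp _
    have b1' : ‖cx (fun z => f (ρ z)) z‖ ≤ |B| * ρ z ^ 2 * ρ z ^ (a + a) := by
      simp only [cx, Complex.norm_real, Real.norm_eq_abs]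
      calc |f (ρ z)| ≤ B * ρ z ^ (2 * a + 2) := b1
        _ ≤ |B| * ρ z ^ (2 * a + 2) := mul_le_mul_of_nonneg_right (le_abs_self B) (by positivity)
        _ = _ := by ring
    have b2' : ‖fderiv ℝ (cx fun z => f (ρ z)) z‖ ≤ |B| * ρ z * M * ρ z ^ (a + a) := by
      have hd : HasDerivAt f (deriv f (ρ z)) (ρ z) :=
        ((hfs z hz.1).differentiableAt (by simp)).hasDerivAt
      have hdρ : DifferentiableAt ℝ ρ z := (hρs z hz.1.1).differentiableAt (by simp)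
      refine ContinuousLinearMap.opNorm_le_bound _ (by positivity) fun v => ?_
      rw [fderiv_comp_real hdρ hd, norm_mul, Complex.norm_real, Real.norm_eq_abs]
      have e1 : |deriv f (ρ z)| ≤ |B| * ρ z * ρ z ^ (a + a) :=
        calc |deriv f (ρ z)| ≤ B * ρ z ^ (2 * a + 1) := b2
          _ ≤ |B| * ρ z ^ (2 * a + 1) :=
            mul_le_mul_of_nonneg_right (le_abs_self B) (by positivity)
          _ = _ := by ring
      have e2 : ‖fderiv ℝ (cx ρ) z v‖ ≤ M * ‖v‖ :=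
        (ContinuousLinearMap.le_opNorm _ _).trans (mul_le_mul_of_nonneg_right m3 (norm_nonneg _))
      calc |deriv f (ρ z)| * ‖fderiv ℝ (cx ρ) z v‖
          ≤ (|B| * ρ z * ρ z ^ (a + a)) * (M * ‖v‖) :=
            mul_le_mul e1 e2 (norm_nonneg _) (by positivity)
        _ = _ := by ring
    have hB := abs_nonneg B
    have hr0 : ρ z ≤ |r₀| := hle.trans (le_abs_self _)
    have hr2 : ρ z ^ 2 ≤ r₀ ^ 2 := pow_le_pow_left₀ hp.le hle 2
    have t1 : 0 ≤ |B| * C * r₀ ^ 2 + |B| * C * M * |r₀| := by positivity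
    have t2 : 0 ≤ |B| * C := by positivity
    constructor
    · rw [hVe]
      show ‖cx (fun z => f (ρ z)) z * H z‖ ≤ _
      rw [norm_mul]
      calc ‖cx (fun z => f (ρ z)) z‖ * ‖H z‖ ≤ (|B| * ρ z ^ 2 * ρ z ^ (a + a)) * ‖H z‖ :=
            mul_le_mul_of_nonneg_right b1' (norm_nonneg _)
        _ = |B| * ρ z ^ 2 * (‖H z‖ * ρ z ^ (a + a)) := by ring
        _ ≤ |B| * ρ z ^ 2 * C := mul_le_mul_of_nonneg_left c1 (by positivity)
        _ = |B| * C * ρ z ^ 2 := by ring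
        _ ≤ _ := mul_le_mul_of_nonneg_right (by linarith) (by positivity)
    · rw [hVe, fderiv_fun_mul (ContDiffAt.da (hF z hz.1)) (ContDiffAt.da (g1 z ⟨hz.1, hK hz.2⟩))]
      calc ‖cx (fun z => f (ρ z)) z • fderiv ℝ H z + H z • fderiv ℝ (cx fun z => f (ρ z)) z‖
          ≤ ‖cx (fun z => f (ρ z)) z‖ * ‖fderiv ℝ H z‖ +
              ‖H z‖ * ‖fderiv ℝ (cx fun z => f (ρ z)) z‖ :=
            (norm_add_le _ _).trans (add_le_add (nsm _ _) (nsm _ _))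
        _ ≤ (|B| * ρ z ^ 2 * ρ z ^ (a + a)) * ‖fderiv ℝ H z‖ +
              ‖H z‖ * (|B| * ρ z * M * ρ z ^ (a + a)) :=
            add_le_add (mul_le_mul_of_nonneg_right b1' (norm_nonneg _))
              (mul_le_mul_of_nonneg_left b2' (norm_nonneg _))
        _ = |B| * ρ z ^ 2 * (‖fderiv ℝ H z‖ * ρ z ^ (a + a)) +
              |B| * ρ z * M * (‖H z‖ * ρ z ^ (a + a)) := by ring
        _ ≤ |B| * ρ z ^ 2 * C + |B| * ρ z * M * C :=
            add_le_add (mul_le_mul_of_nonneg_left c2 (by positivity))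
              (mul_le_mul_of_nonneg_left c1 (by positivity))
        _ = |B| * C * ρ z ^ 2 + |B| * C * M * ρ z := by ring
        _ ≤ |B| * C * r₀ ^ 2 + |B| * C * M * |r₀| :=
            add_le_add (mul_le_mul_of_nonneg_left hr2 t2)
              (mul_le_mul_of_nonneg_left hr0 (by positivity))
        _ ≤ _ := by linarith

theorem e4 (L : Lv0) (h : StmtE1) : StmtE4 := by
  intro N ρ φ hρ hφ κ f hκ r₀ r₁ t B a w hr hReg hf hf0 hfB hw
  obtain ⟨hR, -, -, hpf, htr, -⟩ := (L.pf N).2.2.2 ρ hρ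
  have hO : IsOpen (Op ρ) := (L.c1 N ρ hρ).2.1
  have hK : KK ρ r₀ ⊆ Reg ρ := fun z hz => hReg z hz.1 hz.2.1 hz.2.2
  have hc := isCompact_KK hρ r₀
  have h0 : (0 : E N) ∉ KK ρ r₀ := fun hz => zero_notMem_Sh hz.1
  have hρs : ∀ z : E N, z ≠ 0 → ContDiffAt ℝ ∞ ρ z := fun z hz =>
    hρ.smooth.contDiffAt (isOpen_E0.mem_nhds hz)
  obtain ⟨gw, gv⟩ := Gr.temp hO hc h0 hw
  have gd := Gr.dz hK gv
  have slc : ∀ c j, ∀ z ∈ Reg ρ, ContDiffAt ℝ ∞ (lc ρ c j) z := fun c j z hz =>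
    (hpf z hz).2.2.2.2.1 c j
  have glc : ∀ c j, Gr ρ (KK ρ r₀) 0 (lc ρ c j) := fun c j => Gr.of_smooth hK hc (slc c j)
  have gnn : ∀ j, Gr ρ (KK ρ r₀) 0 (nn ρ j) := fun j =>
    Gr.of_smooth hK hc fun z hz => (hpf z hz).2.2.2.1 j
  have gtr : Gr ρ (KK ρ r₀) 0 (cx (trH ρ ρ)) :=
    Gr.of_smooth hK hc fun z hz => contDiffAt_cx (htr z hz ρ (hρs z hz.1)).2.2.1
  have gLb : ∀ c, Gr ρ (KK ρ r₀) a (Lb (lc ρ c) w) := fun c =>
    Gr.sum hK _ fun j _ => Gr.mul0 hK (glc c j).conj (gd j).2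
  have gLf : ∀ c, Gr ρ (KK ρ r₀) a (Lf (lc ρ c) w) := fun c =>
    Gr.sum hK _ fun j _ => Gr.mul0 hK (glc c j) (gd j).1
  have gdv : ∀ c, Gr ρ (KK ρ r₀) 0 (dv (lc ρ c)) := fun c =>
    Gr.sum hK _ fun j _ => Gr.of_smooth hK hc fun z hz => contDiffAt_dz j (slc c j z hz)
  have gφ : ∀ c, Gr ρ (KK ρ r₀) 0 (Lf (lc ρ c) (cx φ)) := fun c =>
    Gr.sum hK _ fun j _ => Gr.mul0 hK (glc c j) (Gr.of_smooth hK hc fun z hz =>
      contDiffAt_dz j (contDiffAt_cx (hφ.1.contDiffAt (hR.mem_nhds hz))))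
  have gDc : ∀ c, Gr ρ (KK ρ r₀) a (Dc t ρ φ c w) := fun c =>
    Gr.add hK (gLf c) (Gr.mul0 hK (Gr.add hK (gdv c) (Gr.mul0 hK (Gr.const t) (gφ c))) gw)
  have hA := fun l => key h hρ hφ hO hR hκ (t := t) hr hK hf hf0 hfB
    (Gr.sub hK (Gr.sum hK Finset.univ fun c _ =>
      Gr.mul0 hK (glc c l) (Gr.mul hK gw.conj (gLb c)))
      (Gr.mul0 hK (Gr.mul0 hK (gnn l) gtr) (Gr.mul hK gw gw.conj)))
    (FA f κ t ρ φ w l) (fun z => rfl) l
  have hB := fun l => key h hρ hφ hO hR hκ (t := t) hr hK hf hf0 hfB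
    (Gr.neg hK (Gr.sum hK Finset.univ fun c _ =>
      Gr.mul0 hK (glc c l).conj (Gr.mul hK gw.conj (gDc c))))
    (FB f κ t ρ φ w l) (fun z => by simp only [FB, mul_neg]) l
  have iA : IntegrableOn (fun z => ∑ l, dz l (FA f κ t ρ φ w l) z) (Op ρ) :=
    integrable_finset_sum _ fun l _ => (hA l).1.1
  have iB : IntegrableOn (fun z => ∑ l, dzb l (FB f κ t ρ φ w l) z) (Op ρ) :=
    integrable_finset_sum _ fun l _ => (hB l).2.1
  refine ⟨iA.add iB, ?_⟩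
  rw [integral_add iA iB, integral_finset_sum _ fun l _ => (hA l).1.1,
    integral_finset_sum _ fun l _ => (hB l).2.1]
  simp [fun l => (hA l).1.2, fun l => (hB l).2.2]

end Pool.Agent.MP_fcd29e_an.H64
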