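import Pool.Agent.MP_fcd29e_an.H81.Spec2

/-!
The pluriharmonic measure: Hahn–Banach and Riesz–Markov.
-/

set_option autoImplicit false

open Pool.Agent.MP_fcd29e_an.H81 MeasureTheory Complex Set Filter Topology Metric
open scoped ContDiff ComplexConjugate ENNReal NNReal CompactlySupported

namespace Pool.Agent.MP_fcd29e_an.H64

/-- A subspace of `C(X, ℝ)` without a positive function is killed by a probability measure. -/
theorem exists_prob {X : Type} [MetricSpace X] [CompactSpace X] [MeasurableSpace X] [BorelSpace X]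
    (T : Set C(X, ℝ)) (h0 : (0 : C(X, ℝ)) ∈ T)
    (hT : ∀ f ∈ T, ∀ g ∈ T, ∀ s t : ℝ, s • f + t • g ∈ T) (hn : ∀ g ∈ T, ¬ ∀ x, 0 < g x) :
    ∃ ν : Measure X, IsProbabilityMeasure ν ∧ ∀ g ∈ T, ∫ x, g x ∂ν = 0 := by
  have hso : IsOpen {g : C(X, ℝ) | ∀ x, 0 < g x} := by
    have := ContinuousMap.isOpen_setOf_mapsTo (X := X) (Y := ℝ) isCompact_univ
      (isOpen_Ioi (a := (0 : ℝ)))
    convert this using 2 with g
    simp [MapsTo]
  have hsc : Convex ℝ {g : C(X, ℝ) | ∀ x, 0 < g x} := by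
    intro f hf g hg a b ha hb hab x
    have := convex_Ioi (𝕜 := ℝ) (0 : ℝ) (hf x) (hg x) ha hb hab
    simpa using this
  have hTc : Convex ℝ T := fun f hf g hg a b _ _ _ => hT f hf g hg a b
  obtain ⟨F, u, h1, h2⟩ := geometric_hahn_banach_open hsc hso hTc
    (disjoint_left.2 fun g hg hgT => hn g hgT hg)
  have hu : u ≤ 0 := by simpa using h2 0 h0
  have hF0 : ∀ g ∈ T, F g = 0 := by
    intro g hg
    by_contra hne
    have := h2 _ (hT g hg 0 h0 ((u - 1) / F g) 0)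
    simp only [zero_smul, add_zero, map_smul, smul_eq_mul] at this
    rw [div_mul_cancel₀ _ hne] at this
    linarith
  have hF1 : F 1 < 0 := (h1 1 fun x => by simp).trans_le hu
  have hneg : ∀ g : C(X, ℝ), 0 ≤ g → F g ≤ 0 := by
    intro g hg
    by_contra hpos
    rw [not_le] at hpos
    have hε : 0 < F g / (-F 1) := div_pos hpos (by linarith)
    have := h1 (g + (F g / (-F 1)) • (1 : C(X, ℝ))) fun x => by
      have : 0 ≤ g x := hg x
      simp only [ContinuousMap.add_apply, ContinuousMap.smul_apply, ContinuousMap.one_apply,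
        smul_eq_mul, mul_one]
      linarith
    rw [map_add, map_smul, smul_eq_mul] at this
    have e : F g / (-F 1) * F 1 = -F g := by
      have : F 1 ≠ 0 := hF1.ne
      field_simp
    linarith
  let Λ₀ : C_c(X, ℝ) →ₗ[ℝ] ℝ :=
    { toFun := fun g => F g.toContinuousMap / F 1
      map_add' := fun f g => by
        rw [← add_div, ← map_add]; rfl
      map_smul' := fun c g => by
        rw [RingHom.id_apply, smul_eq_mul, ← mul_div_assoc, ← smul_eq_mul, ← map_smul]; rfl }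
  let Λ : C_c(X, ℝ) →ₚ[ℝ] ℝ := PositiveLinearMap.mk₀ Λ₀ fun g hg =>
    div_nonneg_of_nonpos (hneg _ fun x => hg x) hF1.le
  have key : ∀ g : C(X, ℝ), ∫ x, g x ∂(RealRMK.rieszMeasure Λ) = F g / F 1 := fun g =>
    RealRMK.integral_rieszMeasure Λ ⟨g, HasCompactSupport.of_compactSpace _⟩
  refine ⟨RealRMK.rieszMeasure Λ, ?_, fun g hg => by rw [key, hF0 g hg, zero_div]⟩
  have := key 1
  rw [div_self hF1.ne] at this
  simp only [ContinuousMap.one_apply, integral_const, smul_eq_mul, mul_one] at this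
  exact isProbabilityMeasure_iff_real.2 this

theorem mu (L : Lv0) : StmtMU := by
  intro N ρ K hρ hK hno
  obtain ⟨hR, -, -, -, htr, hsc, hbd⟩ := (L.pf N).2.2.2 ρ hρ
  have hne : ∀ z ∈ K, z ≠ 0 := fun z hz h => hK.cone.1 (h ▸ hz)
  have hKR : ∀ z ∈ K, z ∈ Reg ρ := fun z hz => (hbd z (hne z hz) (hK.bd z hz)).1
  set X : Set (E N) := K ∩ sphere 0 1 with hX
  have hXc : IsClosed X := by
    have : X = insert 0 K ∩ sphere 0 1 := by
      ext z
      constructor
      · exact fun h => ⟨Or.inr h.1, h.2⟩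
      · rintro ⟨h | h, h2⟩
        · rw [h] at h2; simp at h2
        · exact ⟨h, h2⟩
    rw [this]
    exact hK.closed.inter isClosed_sphere
  have hXk : IsCompact X := (isCompact_sphere 0 1).of_isClosed_subset hXc inter_subset_right
  haveI : CompactSpace X := isCompact_iff_compactSpace.1 hXk
  have hsm : ∀ φ, SI ρ φ → ∀ z ∈ K, ContDiffAt ℝ ∞ φ z := fun φ hφ z hz =>
    hφ.1.contDiffAt (hR.mem_nhds (hKR z hz))
  have hlin : ∀ φ ψ, SI ρ φ → SI ρ ψ → ∀ s t : ℝ, SI ρ (fun y => s * φ y + t * ψ y) ∧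
      ∀ z ∈ K, trH ρ (fun y => s * φ y + t * ψ y) z = s * trH ρ φ z + t * trH ρ ψ z :=
    fun φ ψ hφ hψ s t => ⟨⟨(contDiffOn_const.mul hφ.1).add (contDiffOn_const.mul hψ.1),
      fun c hc z => by simp only [hφ.2 c hc z, hψ.2 c hc z]⟩, fun z hz =>
        (htr z (hKR z hz) φ (hsm φ hφ z hz)).2.2.2.1 ψ (hsm ψ hψ z hz) s t⟩
  have hz0 : SI ρ fun _ => 0 := ⟨contDiffOn_const, fun _ _ _ => rfl⟩
  obtain ⟨ν, hν, hann⟩ := exists_prob (X := X)
    {g | ∃ φ, SI ρ φ ∧ ∀ x : X, g x = trH ρ φ x}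
    ⟨_, (hlin _ _ hz0 hz0 0 0).1, fun x => by rw [(hlin _ _ hz0 hz0 0 0).2 x x.2.1]; simp⟩
    (by
      rintro f ⟨φ, hφ, hf⟩ g ⟨ψ, hψ, hg⟩ s t
      refine ⟨_, (hlin φ ψ hφ hψ s t).1, fun x => ?_⟩
      rw [(hlin φ ψ hφ hψ s t).2 x x.2.1, ← hf, ← hg]
      simp)
    (by
      rintro g ⟨φ, hφ, hg⟩ hpos
      refine hno ⟨φ, hφ, fun z hz => ?_⟩
      have hn : 0 < ‖z‖ := norm_pos_iff.2 (hne z hz)
      have hc : ((‖z‖⁻¹ : ℝ) : ℂ) ≠ 0 := by exact_mod_cast (inv_pos.2 hn).ne'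
      have hx : ((‖z‖⁻¹ : ℝ) : ℂ) • z ∈ X := ⟨hK.cone.2 _ hc z hz, by
        rw [mem_sphere_zero_iff_norm, norm_smul, Complex.norm_real, Real.norm_eq_abs,
          abs_of_pos (inv_pos.2 hn), inv_mul_cancel₀ hn.ne']⟩
      have h1 := hpos ⟨_, hx⟩
      rw [hg] at h1
      change 0 < trH ρ φ (_ • z) at h1
      rw [hsc φ hφ _ hc z (hKR z hz)] at h1
      exact (mul_pos_iff_of_pos_left (inv_pos.2 (pow_pos (norm_pos_iff.2 hc) 2))).1 h1)
  have hme : MeasurableEmbedding (Subtype.val : X → E N) :=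
    MeasurableEmbedding.subtype_coe hXc.measurableSet
  refine ⟨ν.map Subtype.val, Measure.isProbabilityMeasure_map hme.measurable.aemeasurable,
    ?_, fun φ hφ => ?_⟩
  · rw [hme.ae_map_iff]
    exact Eventually.of_forall fun x => ⟨x.2.1, mem_sphere_zero_iff_norm.1 x.2.2⟩
  · rw [hme.integral_map]
    have hcont : Continuous fun x : X => trH ρ φ x := continuous_iff_continuousAt.2 fun x =>
      ((htr x (hKR x x.2.1) φ (hsm φ hφ x x.2.1)).2.2.1.continuousAt).comp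
        continuous_subtype_val.continuousAt
    exact hann ⟨_, hcont⟩ ⟨φ, hφ, fun _ => rfl⟩

end Pool.Agent.MP_fcd29e_an.H64
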